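import Pool.Agent.H97.PRK.Targets

/-!
# Board prk_modules (MP_e37c09_lc), row GCX
-/

open Ordinal Cardinal Order Set
open scoped ZFSet

universe u

namespace Pool.Agent.H10.PRK

open _root_.HD HD.PRK

theorem gcx_null {μ ρ : Ordinal.{u}} {X : Set Ordinal.{u}} (h : ¬ Pos μ ρ X) :
    ∃ C, Clb ρ C ∧ ∀ b < ρ, b ∈ C → Cf μ b → b ∉ X := by
  unfold Pos at h
  push Not at h
  obtain ⟨C, hC, h⟩ := h
  exact ⟨C, hC, fun b hb h1 h2 h3 => h b hb h1 h3 h2⟩

theorem gcx_ult {en : Ordinal.{u} → ZFSet.{u}} (hen : EN en) {μ κ c : Ordinal.{u}}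
    (hat : Atom en μ κ c) {X : Set Ordinal.{u}} (hX : DS X) :
    ¬ Pos μ κ (E en c ∩ X) ∨ ¬ Pos μ κ (E en c \ X) := by
  obtain ⟨c', hc'⟩ := (All.ea en hen).2.2.1 X hX κ
  have hmem : ∀ b < κ, (b ∈ E en c' ↔ b ∈ X) := by
    intro b hb
    rw [hc']
    exact ⟨fun h => h.1, fun h => ⟨h, hb⟩⟩
  have h := hat.ult c'
  rw [not_and_or] at h
  refine h.imp (fun h1 h2 => h1 ?_) (fun h1 h2 => h1 ?_)
  · refine (Pos.congr fun b hb => ?_).1 h2
    exact and_congr_right fun _ => (hmem b hb).symm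
  · refine (Pos.congr fun b hb => ?_).1 h2
    exact and_congr_right fun _ => not_congr (hmem b hb).symm

/-- if one of the parts is null then the other one is positive -/
theorem gcx_pos {en : Ordinal.{u} → ZFSet.{u}} {K : Cardinal.{u}} (hK : K.IsRegular)
    (hK0 : ℵ₀ < K) {μ c : Ordinal.{u}} (hat : Atom en μ K.ord c) {X : Set Ordinal.{u}} :
    Pos μ K.ord (E en c ∩ X) ∨ Pos μ K.ord (E en c \ X) := by
  by_contra h
  rw [not_or] at h
  refine null_union All.va (by rw [hK.cof_ord]; exact hK0) h.1 h.2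
    (hat.pos.mono fun b _ hb _ => ?_)
  by_cases hx : b ∈ X
  · exact Or.inl ⟨hb, hx⟩
  · exact Or.inr ⟨hb, hx⟩

/-- closure points of a pairing function -/
theorem gcx_cl {K : Cardinal.{u}} (hK : K.IsRegular) (hK0 : ℵ₀ < K)
    (t : Ordinal.{u} → Ordinal.{u} → Ordinal.{u})
    (ht : ∀ a < K.ord, ∀ b < K.ord, t a b < K.ord) :
    ∃ C, Clb K.ord C ∧ ∀ β ∈ C, IsSuccLimit β ∧ ∀ a < β, ∀ b < β, t a b < β := by
  have hlim : IsSuccLimit K.ord := isSuccLimit_ord hK.aleph0_le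
  have h1 : ∀ x, ∃ v, x < K.ord → v < K.ord ∧ x < v ∧ ∀ a ≤ x, ∀ b ≤ x, t a b < v := by
    intro x
    by_cases hx : x < K.ord
    · have hx1 : x + 1 < K.ord := hlim.add_one_lt hx
      have hcard : (x + 1).card < K.ord.cof := by
        rw [hK.cof_ord]
        exact lt_ord.1 hx1
      have h2 : ∀ a, ∃ v, a < x + 1 → v < K.ord ∧ ∀ b < x + 1, t a b < v := by
        intro a
        by_cases ha : a < x + 1
        · obtain ⟨v, hv, hv'⟩ := Pool.Agent.H33.HD.VD.sup_lt hcard (f := t a)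
            fun b hb => ht a (ha.trans hx1) b (hb.trans hx1)
          exact ⟨v, fun _ => ⟨hv, hv'⟩⟩
        · exact ⟨0, fun h => absurd h ha⟩
      choose f hf using h2
      obtain ⟨v, hv, hv'⟩ := Pool.Agent.H33.HD.VD.sup_lt hcard (f := f) fun a ha => (hf a ha).1
      refine ⟨max v (x + 1), fun _ => ⟨max_lt hv hx1, lt_max_of_lt_right (lt_add_one x),
        fun a ha b hb => ?_⟩⟩
      have ha' : a < x + 1 := lt_of_le_of_lt ha (lt_add_one x)
      have hb' : b < x + 1 := lt_of_le_of_lt hb (lt_add_one x)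
      exact lt_max_of_lt_left (((hf a ha').2 b hb').trans (hv' a ha'))
    · exact ⟨0, fun h => absurd h hx⟩
  choose g hg using h1
  refine ⟨{x | x < K.ord → 0 < x ∧ ∀ y < x, g y < x} ∩ Iio K.ord, ?_, ?_⟩
  · have h2 := All.ve K hK hK0 g fun x hx => (hg x hx).1
    refine ⟨fun a ha => ?_, fun x hx hx0 h => ?_⟩
    · obtain ⟨b, hb, hab, hbC⟩ := h2.unb a ha
      exact ⟨b, hb, hab, fun _ => hbC, hb⟩
    · refine ⟨fun _ => h2.cls x hx hx0 fun y hy => ?_, hx⟩
      obtain ⟨z, hz, hyz, hzC⟩ := h y hy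
      exact ⟨z, hz, hyz, hzC.1 hzC.2⟩
  · rintro β ⟨h2, hβ⟩
    have hβ' : β < K.ord := hβ
    obtain ⟨h3, h4⟩ := h2 hβ'
    constructor
    · rw [Ordinal.isSuccLimit_iff]
      refine ⟨h3.ne', ?_⟩
      rw [Order.isSuccPrelimit_iff_succ_lt]
      intro y hy
      refine lt_of_le_of_lt ?_ (h4 y hy)
      exact Order.succ_le_of_lt (hg y (hy.trans hβ')).2.1
    · intro a ha b hb
      have hm : max a b < β := max_lt ha hb
      exact ((hg (max a b) (hm.trans hβ')).2.2 a (le_max_left a b) b (le_max_right a b)).trans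
        (h4 _ hm)

theorem pf_GCX : T_GCX.{u} := by
  intro en hen M K hK hK0 hVE c hat
  obtain ⟨t, htd, htinj, htlt⟩ := All.pr.{u}
  obtain ⟨C1, e, hC1, he, hve2, hve1⟩ := hVE
  obtain ⟨C2, hC2, hC2'⟩ := gcx_cl hK hK0 t (htlt K hK.aleph0_le)
  -- definability
  have hR : ∀ z, DO fun w => (t (w 0) (w 1)).toZFSet ∈ e z := by
    intro z
    have hS : DS {a | a.toZFSet ∈ e z} := OD.ds (he z).1.od
    refine (DO.ex (R := fun x w => x = t (w 0) (w 1) ∧ x.toZFSet ∈ e z) ?_).congr fun w => ?_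
    · exact (htd.ren (fun n => if n = 0 then 1 else if n = 1 then 2 else 0)).and (hS.s1 0)
    · simp
  -- normalisation
  have hN : ∀ z, ∃ C, z < K.ord → Clb K.ord C ∧
      ((∃ n0, ∀ a ∈ C, a ∈ E en c → Cf M.ord a → a < K.ord →
        n0 < a ∧ (t a n0).toZFSet ∈ e z ∧ ∀ n < n0, (t a n).toZFSet ∉ e z) ∨
      ∀ a ∈ C, a ∈ E en c → Cf M.ord a → a < K.ord → ∀ n < a, (t a n).toZFSet ∉ e z) := by
    intro z
    have hX : DS {a | ∃ n < a, (t a n).toZFSet ∈ e z} :=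
      DO.exLt (R := fun n w => (t (w 0) n).toZFSet ∈ e z) 0
        ((hR z).s2 (X := fun a b => (t a b).toZFSet ∈ e z) 1 0)
    rcases gcx_ult hen hat hX with h | h
    · obtain ⟨C0, hC0, h0⟩ := gcx_null h
      refine ⟨C0, fun _ => ⟨hC0, Or.inr fun a ha hac hcf haK n hn hmem => ?_⟩⟩
      exact h0 a haK ha hcf ⟨hac, n, hn, hmem⟩
    · have hp : Pos M.ord K.ord (E en c ∩ {a | ∃ n < a, (t a n).toZFSet ∈ e z}) :=
        (gcx_pos hK hK0 hat).resolve_right h
      obtain ⟨n0, -, hn0⟩ := All.vd M.ord K hK hK0 _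
        (fun b => sInf {n | (t b n).toZFSet ∈ e z}) hp (by
          rintro b ⟨-, n, hn, hmem⟩ _ _
          exact lt_of_le_of_lt (csInf_le' hmem) hn)
      have hY : DS {b | n0 < b ∧ (t b n0).toZFSet ∈ e z ∧ ∀ n < n0, (t b n).toZFSet ∉ e z} := by
        refine (DO.gtc 0 n0).and (DO.and ?_ ?_)
        · exact DO.sub n0 (R := fun x w => (t (w 0) x).toZFSet ∈ e z)
            ((hR z).s2 (X := fun a b => (t a b).toZFSet ∈ e z) 1 0)
        · exact DO.allLtc n0 (R := fun x w => (t (w 0) x).toZFSet ∉ e z)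
            ((hR z).s2 (X := fun a b => (t a b).toZFSet ∈ e z) 1 0).not
      have hp2 : Pos M.ord K.ord (E en c ∩
          {b | n0 < b ∧ (t b n0).toZFSet ∈ e z ∧ ∀ n < n0, (t b n).toZFSet ∉ e z}) := by
        refine hn0.mono ?_
        rintro b _ ⟨⟨hbc, n, hn, hmem⟩, hb⟩ _
        have hb' : sInf {n | (t b n).toZFSet ∈ e z} = n0 := hb
        refine ⟨hbc, ?_, ?_, fun m hm hmm => ?_⟩
        · rw [← hb']
          exact lt_of_le_of_lt (csInf_le' hmem) hn
        · rw [← hb']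
          exact csInf_mem (s := {n | (t b n).toZFSet ∈ e z}) ⟨n, hmem⟩
        · rw [← hb'] at hm
          exact absurd hm (not_lt.2 (csInf_le' hmm))
      obtain ⟨C0, hC0, h0⟩ := gcx_null ((gcx_ult hen hat hY).resolve_left (not_not.2 hp2))
      refine ⟨C0, fun _ => ⟨hC0, Or.inl ⟨n0, fun a ha hac hcf haK => ?_⟩⟩⟩
      by_contra hcon
      exact h0 a haK ha hcf ⟨hac, hcon⟩
  choose CN hCN using hN
  -- decision
  have hD : ∀ z n, ∃ C, Clb K.ord C ∧ ∀ a ∈ C, a ∈ E en c → Cf M.ord a → a < K.ord →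
      ((t n a).toZFSet ∈ e z ↔
        ¬ Pos M.ord K.ord {b | b ∈ E en c ∧ (t n b).toZFSet ∉ e z}) := by
    intro z n
    have hS : DS {b | (t n b).toZFSet ∈ e z} :=
      DO.sub n (R := fun x w => (t x (w 0)).toZFSet ∈ e z)
        ((hR z).s2 (X := fun a b => (t a b).toZFSet ∈ e z) 0 1)
    rcases gcx_ult hen hat hS with h | h
    · have hp : Pos M.ord K.ord (E en c \ {b | (t n b).toZFSet ∈ e z}) :=
        (gcx_pos hK hK0 hat).resolve_left h
      obtain ⟨C0, hC0, h0⟩ := gcx_null h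
      refine ⟨C0, hC0, fun a ha hac hcf haK => ?_⟩
      constructor
      · intro hmem
        exact absurd ⟨hac, hmem⟩ (h0 a haK ha hcf)
      · intro hn
        exact absurd hp hn
    · obtain ⟨C0, hC0, h0⟩ := gcx_null h
      refine ⟨C0, hC0, fun a ha hac hcf haK => ?_⟩
      constructor
      · intro _
        exact h
      · intro _
        by_contra hcon
        exact h0 a haK ha hcf ⟨hac, hcon⟩
  choose CD hCD hCD' using hD
  have hd1 := Pool.Agent.H33.HD.VD.diag hK hK0 CN fun z hz => (hCN z hz).1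
  have hd2 := Pool.Agent.H33.HD.VD.diag hK hK0
    (fun z => {x | 0 < x ∧ ∀ n < x, x ∈ CD z n}) fun z _ =>
      Pool.Agent.H33.HD.VD.diag hK hK0 (CD z) fun n _ => hCD z n
  have hI := Pool.Agent.H54.CL.clb_inter hK0 hK hC1 (Pool.Agent.H54.CL.clb_inter hK0 hK hC2
    (Pool.Agent.H54.CL.clb_inter hK0 hK hd1 hd2))
  refine ⟨C1 ∩ (C2 ∩ ({x | 0 < x ∧ ∀ a < x, x ∈ CN a} ∩
    {x | 0 < x ∧ ∀ a < x, x ∈ {x | 0 < x ∧ ∀ n < x, x ∈ CD a n}})), t, e, ?_⟩
  exact {
    hen := hen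
    kreg := hK
    kunc := hK0
    atom := hat
    tdo := htd
    tinj := htinj
    tlt := htlt K hK.aleph0_le
    clb := hI
    cl := fun β hβ _ => hC2' β hβ.2.1
    he := he
    ve1 := fun β hβ hβK => (hve1 β hβ.1 hβK).1
    ve2 := hve2
    nrm := by
      intro z hz
      rcases (hCN z hz).2 with ⟨n0, h⟩ | h
      · exact Or.inl ⟨n0, fun a ha hac hcf hza haK => h a (ha.2.2.1.2 z hza) hac hcf haK⟩
      · exact Or.inr fun a ha hac hcf hza haK => h a (ha.2.2.1.2 z hza) hac hcf haK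
    dec := by
      intro z _ n _ a ha hac hcf hza hna haK
      exact hCD' z n a ((ha.2.2.2.2 z hza).2 n hna) hac hcf haK }

end Pool.Agent.H10.PRK
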