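import Pool.Agent.H97.PRK.Targets

/-!
# Board prk_modules (MP_e37c09_lc), row S1
-/

open Ordinal Cardinal Order Set
open scoped ZFSet

universe u

namespace Pool.Agent.H10.PRK

open _root_.HD HD.PRK

variable {δ η θ : Ordinal.{u}} {j : ZFSet.{u} → ZFSet.{u}}

theorem s1_pair (h : Emb δ η θ j) {x F : ZFSet.{u}} {a : Ordinal.{u}} (hx : x ∈ V_ η)
    (ha : a < η) (hF : F ∈ V_ η) :
    a ∈ sec F x ↔ Jo j a ∈ sec (j F) (j x) := by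
  change ZFSet.pair x a.toZFSet ∈ F ↔ ZFSet.pair (j x) (Jo j a).toZFSet ∈ j F
  rw [h.mem (h.gd.pair hx (Gd.ord.2 ha)) hF, h.pair hx (Gd.ord.2 ha), h.ord ha]

theorem s1_agr (h : Emb δ η θ j) {x F s : ZFSet.{u}} {i : Ordinal.{u}} (hi : i < η)
    (hx : x ∈ V_ η) (hF : F ∈ V_ η) (hs : s ∈ V_ η)
    (hA : ∀ z ∈ i.toZFSet, (ZFSet.pair x z ∈ F ↔ z ∈ s)) :
    ∀ z ∈ (Jo j i).toZFSet, (ZFSet.pair (j x) z ∈ j F ↔ z ∈ j s) := by
  have hL : Loc.{u} fun v => ∀ a ∈ v 0, (ZFSet.pair (v 1) a ∈ v 2 ↔ a ∈ v 3) :=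
    Loc.allMem (R := fun a v => ZFSet.pair (v 1) a ∈ v 2 ↔ a ∈ v 3) 0
      ((loc_pmem 2 0 3).iff (Loc.mem 0 4))
  have := (h.trl hL [i.toZFSet, x, F, s] (by simp [Gd.ord, hi, hx, hF, hs])).1 hA
  have h2 : ∀ a ∈ j i.toZFSet, (ZFSet.pair (j x) a ∈ j F ↔ a ∈ j s) := this
  rwa [h.ord hi] at h2

/-- the least difference of the sections at `x` and at `y` -/
def s1_R (a x y F : ZFSet.{u}) : Prop := a.IsOrdinal ∧
  ¬ (ZFSet.pair x a ∈ F ↔ ZFSet.pair y a ∈ F) ∧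
  ∀ b ∈ a, (ZFSet.pair x b ∈ F ↔ ZFSet.pair y b ∈ F)

theorem s1_loc : Loc.{u} fun v => s1_R (v 0) (v 1) (v 2) (v 3) :=
  (loc_ord 0).and (((loc_pmem 1 0 3).iff (loc_pmem 2 0 3)).not.and
    (Loc.allMem (R := fun b v => (ZFSet.pair (v 1) b ∈ v 3 ↔ ZFSet.pair (v 2) b ∈ v 3)) 0
      ((loc_pmem 2 0 4).iff (loc_pmem 3 0 4))))

theorem s1_uniq {x y F : ZFSet.{u}} {a b : Ordinal.{u}} (ha : s1_R a.toZFSet x y F)
    (hb : s1_R b.toZFSet x y F) : a = b := by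
  rcases lt_trichotomy a b with h | h | h
  · exact absurd (hb.2.2 _ (toZFSet_mem_toZFSet_iff.2 h)) ha.2.1
  · exact h
  · exact absurd (ha.2.2 _ (toZFSet_mem_toZFSet_iff.2 h)) hb.2.1

theorem s1_ex (h : Emb δ η θ j) {x y F : ZFSet.{u}} {i : Ordinal.{u}} (hx : x ∈ V_ η)
    (hy : y ∈ V_ η) (hF : F ∈ V_ η) (hi : i.toZFSet ∈ V_ θ)
    (hR : s1_R i.toZFSet (j x) (j y) (j F)) :
    ∃ i0 < η, i = Jo j i0 := by
  obtain ⟨a, ha, hRa⟩ := (h.trl_ex (R := fun a v => s1_R a (v 0) (v 1) (v 2)) s1_loc [x, y, F]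
    (by simp [hx, hy, hF])).2 ⟨i.toZFSet, hi, hR⟩
  have hRa' : s1_R a x y F := hRa
  have hao : a.rank.toZFSet = a := hRa'.1.toZFSet_rank_eq
  have haη : a.rank < η := by rwa [← hao, Gd.ord] at ha
  refine ⟨a.rank, haη, ?_⟩
  have h3 := (h.trl s1_loc [a, x, y, F] (by simp [ha, hx, hy, hF])).1 hRa'
  have h4 : s1_R (j a) (j x) (j y) (j F) := h3
  rw [← hao, h.ord haη] at h4
  exact s1_uniq hR h4

/-- Row S1 of the board prk_modules. -/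
theorem pf_S1 (_h0 : T_JX.{u}) (h1 : T_SJ1.{u}) (h2 : T_SJ2.{u}) : T_S1.{u} := by
  intro δ η θ j K μ ρ F hs i
  have hj := hs.emb
  have hF := hs.fη
  constructor
  · rintro ⟨Y, hp, hn⟩
    have hu : Clb K.ord (univ : Set Ordinal.{u}) := by
      refine ⟨fun a ha => ⟨succ a, ?_, lt_succ a, mem_univ _⟩, fun _ _ _ _ => mem_univ _⟩
      exact (Cardinal.isSuccLimit_ord hs.kreg.1).succ_lt ha
    obtain ⟨E, hE, hE2⟩ := h2 _ _ _ _ _ _ _ _ hs _ hu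
    obtain ⟨y1, hy1, hA1, hi1⟩ := hp E hE
    obtain ⟨y2, hy2, hA2, hi2⟩ := hn E hE
    obtain ⟨x1, -, hx1, rfl⟩ := hE2 _ hy1
    obtain ⟨x2, -, hx2, rfl⟩ := hE2 _ hy2
    have hR : s1_R i.toZFSet (j x1) (j x2) (j F) := by
      refine ⟨ZFSet.isOrdinal_toZFSet i, fun h => hi2 (h.1 hi1), fun b hb => ?_⟩
      obtain ⟨a, ha, rfl⟩ := mem_toZFSet_iff.1 hb
      exact (hA1 a ha).trans (hA2 a ha).symm
    have hiθ : i.toZFSet ∈ V_ θ := snd_mem_V hi1 (hj.map _ hF)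
    obtain ⟨i0, hi0, rfl⟩ := s1_ex hj hx1 hx2 hF hiθ hR
    refine ⟨i0, hi0, rfl, sec F x1, fun C hC => ?_, fun C hC => ?_⟩
    · obtain ⟨E', hE', hE2'⟩ := h2 _ _ _ _ _ _ _ _ hs _ hC
      obtain ⟨y, hy, hA, hi⟩ := hp E' hE'
      obtain ⟨x, hx, hxη, rfl⟩ := hE2' _ hy
      refine ⟨x, hx, fun a ha => ?_, (s1_pair hj hxη hi0 hF).2 hi⟩
      have haη := ha.trans hi0
      have haj := (hj.lt_iff haη hi0).2 ha
      exact (s1_pair hj hxη haη hF).trans ((hA _ haj).trans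
        ((hA1 _ haj).symm.trans (s1_pair hj hx1 haη hF).symm))
    · obtain ⟨E', hE', hE2'⟩ := h2 _ _ _ _ _ _ _ _ hs _ hC
      obtain ⟨y, hy, hA, hi⟩ := hn E' hE'
      obtain ⟨x, hx, hxη, rfl⟩ := hE2' _ hy
      refine ⟨x, hx, fun a ha => ?_, fun h => hi ((s1_pair hj hxη hi0 hF).1 h)⟩
      have haη := ha.trans hi0
      have haj := (hj.lt_iff haη hi0).2 ha
      exact (s1_pair hj hxη haη hF).trans ((hA _ haj).trans
        ((hA1 _ haj).symm.trans (s1_pair hj hx1 haη hF).symm))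
  · rintro ⟨i0, hi0, rfl, Y, hp, hn⟩
    have hos : os i0 Y ∈ V_ η := by
      refine mem_V_of_sub (y := i0.toZFSet) (fun z hz => ?_) (Gd.ord.2 hi0)
      obtain ⟨a, ha, -, rfl⟩ := mem_os.1 hz
      exact toZFSet_mem_toZFSet_iff.2 ha
    have key : ∀ x ∈ V_ η, Agr F x i0 Y →
        Agr (j F) (j x) (Jo j i0) {b | b.toZFSet ∈ j (os i0 Y)} := by
      intro x hx hA a ha
      refine s1_agr hj hi0 hx hF hos (fun z hz => ?_) _ (toZFSet_mem_toZFSet_iff.2 ha)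
      obtain ⟨b, hb, rfl⟩ := mem_toZFSet_iff.1 hz
      rw [ord_mem_os]
      exact (hA b hb).trans ⟨fun h => ⟨hb, h⟩, fun h => h.2⟩
    refine ⟨{b | b.toZFSet ∈ j (os i0 Y)}, fun E hE => ?_, fun E hE => ?_⟩
    · obtain ⟨C, hC, hC2⟩ := h1 _ _ _ _ _ _ _ _ hs _ hE
      obtain ⟨x, hx, hA, hi⟩ := hp C hC
      obtain ⟨hxη, hxE⟩ := hC2 _ hx
      exact ⟨j x, hxE, key x hxη hA, (s1_pair hj hxη hi0 hF).1 hi⟩
    · obtain ⟨C, hC, hC2⟩ := h1 _ _ _ _ _ _ _ _ hs _ hE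
      obtain ⟨x, hx, hA, hi⟩ := hn C hC
      obtain ⟨hxη, hxE⟩ := hC2 _ hx
      exact ⟨j x, hxE, key x hxη hA, fun h => hi ((s1_pair hj hxη hi0 hF).2 h)⟩

end Pool.Agent.H10.PRK
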